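import Pool.Agent.Helper91_PP.Statements

/-!
# MODULE K2: the stellation of a connected plane graph
-/

set_option autoImplicit false

namespace Helper14_PP

open H91PP

/-- The corner condition. -/
theorem even_corner {V E T : Type} (a b : E → V) (l r : E → T) (c : T → Fin 3 → V)
    (s : T → Fin 3 → E) (c_inj : ∀ t, Function.Injective (c t))
    (s_ends : ∀ t i, (a (s t i) = c t i ∧ b (s t i) = c t (i + 1)) ∨
      (a (s t i) = c t (i + 1) ∧ b (s t i) = c t i))
    (s_lr : ∀ t i, l (s t i) = t ∨ r (s t i) = t)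
    (l_s : ∀ e, ∃ i, s (l e) i = e) (r_s : ∀ e, ∃ i, s (r e) i = e) (t : T) (v : V) :
    Even (Set.ncard {e | (l e = t ∨ r e = t) ∧ (a e = v ∨ b e = v)}) := by
  classical
  have hs : ∀ e, (l e = t ∨ r e = t) → ∃ j, s t j = e := by
    rintro e (h | h)
    · rw [← h]; exact l_s e
    · rw [← h]; exact r_s e
  by_cases hv : ∃ i, c t i = v
  · obtain ⟨i, rfl⟩ := hv
    have hset : {e | (l e = t ∨ r e = t) ∧ (a e = c t i ∨ b e = c t i)} =
        {s t i, s t (i + 2)} := by
      ext e
      simp only [Set.mem_ofPred_eq, Set.mem_insert_iff, Set.mem_singleton_iff]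
      constructor
      · rintro ⟨h1, h2⟩
        obtain ⟨j, rfl⟩ := hs e h1
        have h3 : i = j ∨ i = j + 1 := by
          rcases s_ends t j with ⟨ha, hb⟩ | ⟨ha, hb⟩
          · rw [ha, hb] at h2
            rcases h2 with h2 | h2
            · exact Or.inl (c_inj t h2).symm
            · exact Or.inr (c_inj t h2).symm
          · rw [ha, hb] at h2
            rcases h2 with h2 | h2
            · exact Or.inr (c_inj t h2).symm
            · exact Or.inl (c_inj t h2).symm
        rcases h3 with rfl | rfl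
        · exact Or.inl rfl
        · right
          congr 1
          fin_cases j <;> rfl
      · have hi2 : i + 2 + 1 = i := by fin_cases i <;> rfl
        rintro (rfl | rfl)
        · refine ⟨s_lr t i, ?_⟩
          rcases s_ends t i with ⟨ha, hb⟩ | ⟨ha, hb⟩
          · exact Or.inl ha
          · exact Or.inr hb
        · refine ⟨s_lr t (i + 2), ?_⟩
          rcases s_ends t (i + 2) with ⟨ha, hb⟩ | ⟨ha, hb⟩
          · rw [hi2] at hb
            exact Or.inr hb
          · rw [hi2] at ha
            exact Or.inl ha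
    have hne : s t i ≠ s t (i + 2) := by
      intro h
      have hi2 : i + 2 + 1 = i := by fin_cases i <;> rfl
      have h1 := s_ends t i
      have h2 := s_ends t (i + 2)
      rw [← h, hi2] at h2
      have n1 : i ≠ i + 1 := by fin_cases i <;> decide
      have n2 : i + 1 ≠ i + 2 := by fin_cases i <;> decide
      have n3 : i + 2 ≠ i := by fin_cases i <;> decide
      rcases h1 with ⟨ha, hb⟩ | ⟨ha, hb⟩ <;> rcases h2 with ⟨ha', hb'⟩ | ⟨ha', hb'⟩
      · exact n3 (c_inj t (ha'.symm.trans ha))
      · exact n2 (c_inj t (hb.symm.trans hb'))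
      · exact n2 (c_inj t (ha.symm.trans ha'))
      · exact n3 (c_inj t (hb'.symm.trans hb))
    rw [hset, Set.ncard_pair hne]
    exact even_two
  · have hset : {e | (l e = t ∨ r e = t) ∧ (a e = v ∨ b e = v)} = ∅ := by
      rw [Set.eq_empty_iff_forall_notMem]
      rintro e ⟨h1, h2⟩
      obtain ⟨j, rfl⟩ := hs e h1
      apply hv
      rcases s_ends t j with ⟨ha, hb⟩ | ⟨ha, hb⟩
      · rcases h2 with h2 | h2
        · exact ⟨j, ha.symm.trans h2⟩
        · exact ⟨j + 1, hb.symm.trans h2⟩
      · rcases h2 with h2 | h2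
        · exact ⟨j + 1, ha.symm.trans h2⟩
        · exact ⟨j, hb.symm.trans h2⟩
    rw [hset, Set.ncard_empty]
    exact Even.zero

section

variable {V : Type} (G : SimpleGraph V) (σ : Equiv.Perm G.Dart)

/-- the face of a dart -/
def fc (d : G.Dart) : Faces G σ := Quotient.mk _ d

theorem fc_eq {d d' : G.Dart} : fc G σ d = fc G σ d' ↔ (facePerm G σ).SameCycle d d' := by
  constructor
  · intro h
    exact Quotient.exact h
  · intro h
    exact Quotient.sound h

theorem fc_surj (f : Faces G σ) : ∃ d, fc G σ d = f := by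
  obtain ⟨d, rfl⟩ := Quotient.exists_rep f
  exact ⟨d, rfl⟩

theorem facePerm_apply (d : G.Dart) : facePerm G σ d = σ d.symm := rfl

theorem fc_facePerm (d : G.Dart) : fc G σ (facePerm G σ d) = fc G σ d := by
  rw [fc_eq]
  exact (Equiv.Perm.sameCycle_apply_left).2 (Equiv.Perm.SameCycle.refl _ _)

/-- a dart of an edge -/
noncomputable def dt (e : G.edgeSet) : G.Dart :=
  Classical.choose (show ∃ d : G.Dart, d.edge = e.1 by
    obtain ⟨e, he⟩ := e
    induction e using Sym2.ind with
    | _ x y => exact ⟨⟨(x, y), he⟩, rfl⟩)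

theorem dt_edge (e : G.edgeSet) : (dt G e).edge = e.1 :=
  Classical.choose_spec (show ∃ d : G.Dart, d.edge = e.1 by
    obtain ⟨e, he⟩ := e
    induction e using Sym2.ind with
    | _ x y => exact ⟨⟨(x, y), he⟩, rfl⟩)

/-- the edge of a dart as an element of the edge set -/
def eg (d : G.Dart) : G.edgeSet := ⟨d.edge, d.edge_mem⟩

theorem dt_eg (d : G.Dart) : dt G (eg G d) = d ∨ dt G (eg G d) = d.symm :=
  (SimpleGraph.dart_edge_eq_iff _ _).1 (dt_edge G (eg G d))

theorem eg_dt (e : G.edgeSet) : eg G (dt G e) = e := Subtype.ext (dt_edge G e)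

theorem eg_dt_symm (e : G.edgeSet) : eg G (dt G e).symm = e :=
  Subtype.ext (by
    show ((dt G e).symm).edge = e.1
    rw [SimpleGraph.Dart.edge_symm]
    exact dt_edge G e)

variable {G σ}

theorem facePerm_fst (h1 : ∀ d, (σ d).fst = d.fst) (d : G.Dart) :
    (facePerm G σ d).fst = d.snd := by
  rw [facePerm_apply, h1]
  rfl

theorem facePerm_ne (h1 : ∀ d, (σ d).fst = d.fst) (d : G.Dart) : facePerm G σ d ≠ d := by
  intro h
  have := facePerm_fst h1 d
  rw [h] at this
  exact d.adj.ne this

theorem facePerm_symm (d : G.Dart) : (facePerm G σ).symm d = (σ.symm d).symm := by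
  rw [Equiv.symm_apply_eq, facePerm_apply, SimpleGraph.Dart.symm_symm, Equiv.apply_symm_apply]

theorem sigma_symm_fst (h1 : ∀ d, (σ d).fst = d.fst) (d : G.Dart) : (σ.symm d).fst = d.fst := by
  have := h1 (σ.symm d)
  rw [Equiv.apply_symm_apply] at this
  exact this.symm

/-- A set of points invariant under a permutation contains a cycle or is disjoint from it. -/
theorem mem_iff_of_sameCycle {D : Type} {τ : Equiv.Perm D} {N : Set D} {Q : D → Prop}
    (hQ : ∀ d, Q d → Q (τ d)) (hQ' : ∀ d, Q d → Q (τ.symm d))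
    (h : ∀ d, Q d → (d ∈ N ↔ τ.symm d ∈ N)) {d d' : D} (hd : Q d) (hs : τ.SameCycle d d') :
    Q d' ∧ (d ∈ N ↔ d' ∈ N) := by
  obtain ⟨i, rfl⟩ := hs
  induction i using Int.induction_on with
  | zero => simpa using hd
  | succ n ih =>
    obtain ⟨h1, h2⟩ := ih
    have e1 : (τ ^ ((n : ℤ) + 1)) d = τ ((τ ^ (n : ℤ)) d) := by
      rw [add_comm, zpow_add, zpow_one, Equiv.Perm.mul_apply]
    rw [e1]
    refine ⟨hQ _ h1, h2.trans ?_⟩
    have h3 := h _ (hQ _ h1)
    rw [Equiv.symm_apply_apply] at h3
    exact h3.symm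
  | pred n ih =>
    obtain ⟨h1, h2⟩ := ih
    have e1 : (τ ^ (-(n : ℤ) - 1)) d = τ.symm ((τ ^ (-(n : ℤ))) d) := by
      rw [sub_eq_add_neg, add_comm, zpow_add, zpow_neg_one, Equiv.Perm.mul_apply]
      rfl
    rw [e1]
    exact ⟨hQ' _ h1, h2.trans (h _ h1)⟩

/-- invariance around a vertex -/
theorem vertex_inv (h1 : ∀ d, (σ d).fst = d.fst) (h2 : ∀ d d' : G.Dart, d.fst = d'.fst → σ.SameCycle d d')
    {N : Set G.Dart} {x : V}
    (hN1 : ∀ e : G.edgeSet, (dt G e).fst = x ∨ (dt G e).snd = x → (dt G e ∈ N ↔ (dt G e).symm ∈ N))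
    (hN2 : ∀ d : G.Dart, d.fst = x → (d ∈ N ↔ (facePerm G σ).symm d ∈ N)) {d d' : G.Dart}
    (hd : d.fst = x ∨ d.snd = x) (hd' : d'.fst = x ∨ d'.snd = x) : d ∈ N ↔ d' ∈ N := by
  have hsymm : ∀ d : G.Dart, d.fst = x ∨ d.snd = x → (d ∈ N ↔ d.symm ∈ N) := by
    intro d hd
    rcases dt_eg G d with h | h
    · have := hN1 (eg G d)
      rw [h] at this
      exact this hd
    · have := hN1 (eg G d)
      rw [h, SimpleGraph.Dart.symm_symm] at this
      exact (this (by
        rcases hd with hd | hd
        · exact Or.inr hd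
        · exact Or.inl hd)).symm
  have hrot : ∀ d : G.Dart, d.fst = x → (d ∈ N ↔ σ.symm d ∈ N) := by
    intro d hd
    rw [hN2 d hd, facePerm_symm]
    refine (hsymm (σ.symm d) (Or.inl ?_)).symm
    rw [sigma_symm_fst h1]
    exact hd
  have key : ∀ d d' : G.Dart, d.fst = x → d'.fst = x → (d ∈ N ↔ d' ∈ N) := by
    intro d d' hd hd'
    exact (mem_iff_of_sameCycle (τ := σ) (N := N) (Q := fun d => d.fst = x)
      (fun d hd => (h1 d).trans hd) (fun d hd => (sigma_symm_fst h1 d).trans hd)
      hrot hd (h2 d d' (hd.trans hd'.symm))).2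
  have key2 : ∀ d : G.Dart, d.fst = x ∨ d.snd = x → ∃ d'' : G.Dart, d''.fst = x ∧ (d ∈ N ↔ d'' ∈ N) := by
    rintro d (hd | hd)
    · exact ⟨d, hd, Iff.rfl⟩
    · exact ⟨d.symm, hd, hsymm d (Or.inr hd)⟩
  obtain ⟨e, he, hde⟩ := key2 d hd
  obtain ⟨e', he', hde'⟩ := key2 d' hd'
  exact hde.trans ((key e e' he he').trans hde'.symm)

/-- going along walks -/
theorem conn_inv (hc : G.Connected) {N : Set G.Dart}
    (hinv : ∀ (x : V) (d d' : G.Dart), (d.fst = x ∨ d.snd = x) → (d'.fst = x ∨ d'.snd = x) →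
      (d ∈ N ↔ d' ∈ N)) (d d' : G.Dart) : d ∈ N ↔ d' ∈ N := by
  have key : ∀ (x y : V) (p : G.Walk x y) (d d' : G.Dart), (d.fst = x ∨ d.snd = x) →
      (d'.fst = y ∨ d'.snd = y) → (d ∈ N ↔ d' ∈ N) := by
    intro x y p
    induction p with
    | nil => exact fun d d' hd hd' => hinv _ d d' hd hd'
    | @cons u v w h p ih =>
      intro d d' hd hd'
      exact (hinv u d ⟨(u, v), h⟩ hd (Or.inl rfl)).trans (ih ⟨(u, v), h⟩ d' (Or.inr rfl) hd')
  obtain ⟨p⟩ := hc.preconnected d.fst d'.fst
  exact key _ _ p d d' (Or.inl rfl) (Or.inl rfl)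

variable (G σ)

/-- first end -/
noncomputable def aE : G.edgeSet ⊕ G.Dart → V ⊕ Faces G σ :=
  Sum.elim (fun e => Sum.inl (dt G e).fst) (fun d => Sum.inl d.fst)

/-- second end -/
noncomputable def bE : G.edgeSet ⊕ G.Dart → V ⊕ Faces G σ :=
  Sum.elim (fun e => Sum.inl (dt G e).snd) (fun d => Sum.inr (fc G σ d))

/-- first triangle -/
noncomputable def lE : G.edgeSet ⊕ G.Dart → G.Dart := Sum.elim (fun e => dt G e) (fun d => d)

/-- second triangle -/
noncomputable def rE : G.edgeSet ⊕ G.Dart → G.Dart :=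
  Sum.elim (fun e => (dt G e).symm) (fun d => (facePerm G σ).symm d)

/-- corners -/
def cT (d : G.Dart) : Fin 3 → V ⊕ Faces G σ := ![Sum.inl d.fst, Sum.inl d.snd, Sum.inr (fc G σ d)]

/-- sides -/
def sT (d : G.Dart) : Fin 3 → G.edgeSet ⊕ G.Dart := ![Sum.inl (eg G d), Sum.inr (facePerm G σ d), Sum.inr d]

variable {G σ}

theorem hab (e : G.edgeSet ⊕ G.Dart) : aE G σ e ≠ bE G σ e := by
  rcases e with e | d
  · intro h
    exact (dt G e).adj.ne (Sum.inl.inj h)
  · intro h
    exact Sum.inl_ne_inr h

theorem hlr (h1 : ∀ d, (σ d).fst = d.fst) (e : G.edgeSet ⊕ G.Dart) : lE G e ≠ rE G σ e := by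
  rcases e with e | d
  · exact (SimpleGraph.Dart.symm_ne _).symm
  · intro h
    have h' : d = (facePerm G σ).symm d := h
    rw [Equiv.eq_symm_apply] at h'
    exact facePerm_ne h1 d h'

theorem hc_inj (d : G.Dart) : Function.Injective (cT G σ d) := by
  intro i j hij
  have hne := d.adj.ne
  fin_cases i <;> fin_cases j <;> simp_all [cT]

theorem hs_ends (h1 : ∀ d, (σ d).fst = d.fst) (t : G.Dart) (i : Fin 3) :
    (aE G σ (sT G σ t i) = cT G σ t i ∧ bE G σ (sT G σ t i) = cT G σ t (i + 1)) ∨
      (aE G σ (sT G σ t i) = cT G σ t (i + 1) ∧ bE G σ (sT G σ t i) = cT G σ t i) := by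
  fin_cases i
  · rcases dt_eg G t with h | h
    · left
      refine ⟨?_, ?_⟩
      · show Sum.inl (dt G (eg G t)).fst = Sum.inl t.fst
        rw [h]
      · show Sum.inl (dt G (eg G t)).snd = Sum.inl t.snd
        rw [h]
    · right
      refine ⟨?_, ?_⟩
      · show Sum.inl (dt G (eg G t)).fst = Sum.inl t.snd
        rw [h]
        rfl
      · show Sum.inl (dt G (eg G t)).snd = Sum.inl t.fst
        rw [h]
        rfl
  · left
    refine ⟨?_, ?_⟩
    · show Sum.inl (facePerm G σ t).fst = Sum.inl t.snd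
      rw [facePerm_fst h1]
    · show Sum.inr (fc G σ (facePerm G σ t)) = Sum.inr (fc G σ t)
      rw [fc_facePerm]
  · right
    exact ⟨rfl, rfl⟩

theorem hs_lr (t : G.Dart) (i : Fin 3) : lE G (sT G σ t i) = t ∨ rE G σ (sT G σ t i) = t := by
  fin_cases i
  · rcases dt_eg G t with h | h
    · left
      exact h
    · right
      show (dt G (eg G t)).symm = t
      rw [h, SimpleGraph.Dart.symm_symm]
  · right
    exact (facePerm G σ).symm_apply_apply t
  · left
    rfl

theorem hl_s (e : G.edgeSet ⊕ G.Dart) : ∃ i, sT G σ (lE G e) i = e := by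
  rcases e with e | d
  · refine ⟨0, ?_⟩
    show Sum.inl (eg G (dt G e)) = Sum.inl e
    rw [eg_dt]
  · exact ⟨2, rfl⟩

theorem hr_s (e : G.edgeSet ⊕ G.Dart) : ∃ i, sT G σ (rE G σ e) i = e := by
  rcases e with e | d
  · refine ⟨0, ?_⟩
    show Sum.inl (eg G (dt G e).symm) = Sum.inl e
    rw [eg_dt_symm]
  · refine ⟨1, ?_⟩
    show Sum.inr (facePerm G σ ((facePerm G σ).symm d)) = Sum.inr d
    rw [Equiv.apply_symm_apply]

/-- corners at `inl x` -/
theorem corner_inl {t : G.Dart} {i : Fin 3} {x : V} (h : cT G σ t i = Sum.inl x) :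
    t.fst = x ∨ t.snd = x := by
  fin_cases i
  · exact Or.inl (Sum.inl.inj h)
  · exact Or.inr (Sum.inl.inj h)
  · exact absurd h Sum.inr_ne_inl

theorem corner_inr {t : G.Dart} {i : Fin 3} {f : Faces G σ} (h : cT G σ t i = Sum.inr f) :
    fc G σ t = f := by
  fin_cases i
  · exact absurd h Sum.inl_ne_inr
  · exact absurd h Sum.inl_ne_inr
  · exact Sum.inr.inj h

theorem hlink (h1 : ∀ d, (σ d).fst = d.fst) (h2 : ∀ d d' : G.Dart, d.fst = d'.fst → σ.SameCycle d d')
    (v : V ⊕ Faces G σ) (N : Set G.Dart) (hN : ∃ t ∈ N, ∃ i, cT G σ t i = v)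
    (hN' : ∃ t, t ∉ N ∧ ∃ i, cT G σ t i = v) :
    ∃ e, (aE G σ e = v ∨ bE G σ e = v) ∧ ¬ (lE G e ∈ N ↔ rE G σ e ∈ N) := by
  by_contra hcon
  push Not at hcon
  obtain ⟨t, ht, i, hi⟩ := hN
  obtain ⟨t', ht', i', hi'⟩ := hN'
  rcases v with x | f
  · have := vertex_inv (N := N) h1 h2 (x := x) (fun e he => hcon (Sum.inl e) (by
      rcases he with he | he
      · exact Or.inl (congrArg Sum.inl he)
      · exact Or.inr (congrArg Sum.inl he))) (fun d hd => hcon (Sum.inr d) (Or.inl (congrArg Sum.inl hd)))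
      (corner_inl hi) (corner_inl hi')
    exact ht' (this.1 ht)
  · have e1 := corner_inr hi
    have e2 := corner_inr hi'
    have hs : (facePerm G σ).SameCycle t t' := (fc_eq G σ).1 (e1.trans e2.symm)
    have := (mem_iff_of_sameCycle (τ := facePerm G σ) (N := N) (Q := fun d => fc G σ d = f)
      (fun d hd => (fc_facePerm G σ d).trans hd)
      (fun d hd => by
        have := fc_facePerm G σ ((facePerm G σ).symm d)
        rw [Equiv.apply_symm_apply] at this
        exact this.symm.trans hd)
      (fun d hd => hcon (Sum.inr d) (Or.inr (congrArg Sum.inr hd))) e1 hs).2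
    exact ht' (this.1 ht)

theorem hconn (hc : G.Connected) (h1 : ∀ d, (σ d).fst = d.fst)
    (h2 : ∀ d d' : G.Dart, d.fst = d'.fst → σ.SameCycle d d')
    (N : Set G.Dart) (hN : ∀ e, lE G e ∈ N ↔ rE G σ e ∈ N) : N = ∅ ∨ N = Set.univ := by
  have key := conn_inv hc (N := N) (fun x d d' hd hd' => vertex_inv h1 h2 (x := x)
    (fun e _ => hN (Sum.inl e)) (fun d _ => hN (Sum.inr d)) hd hd')
  rcases N.eq_empty_or_nonempty with h | ⟨d, hd⟩
  · exact Or.inl h
  · right
    rw [Set.eq_univ_iff_forall]
    exact fun d' => (key d d').1 hd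

theorem hconnV (hc : G.Connected) (A : Set (V ⊕ Faces G σ))
    (hA : ∀ e, aE G σ e ∈ A ↔ bE G σ e ∈ A) : A = ∅ ∨ A = Set.univ := by
  have hadj : ∀ x y : V, G.Adj x y → ((Sum.inl x : V ⊕ Faces G σ) ∈ A ↔ Sum.inl y ∈ A) := by
    intro x y hxy
    have := hA (Sum.inl (eg G ⟨(x, y), hxy⟩))
    rcases dt_eg G ⟨(x, y), hxy⟩ with h | h
    · simp only [aE, bE, Sum.elim_inl, h] at this
      exact this
    · simp only [aE, bE, Sum.elim_inl, h] at this
      exact this.symm
  have hV : ∀ x y : V, ((Sum.inl x : V ⊕ Faces G σ) ∈ A ↔ Sum.inl y ∈ A) := by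
    intro x y
    obtain ⟨p⟩ := hc.preconnected x y
    induction p with
    | nil => exact Iff.rfl
    | cons h p ih => exact (hadj _ _ h).trans ih
  have hF : ∀ d : G.Dart, ((Sum.inl d.fst : V ⊕ Faces G σ) ∈ A ↔ Sum.inr (fc G σ d) ∈ A) :=
    fun d => hA (Sum.inr d)
  have hall : ∀ v w : V ⊕ Faces G σ, v ∈ A ↔ w ∈ A := by
    have h3 : ∀ v : V ⊕ Faces G σ, ∃ x : V, (v ∈ A ↔ Sum.inl x ∈ A) := by
      rintro (x | f)
      · exact ⟨x, Iff.rfl⟩
      · obtain ⟨d, rfl⟩ := fc_surj G σ f
        exact ⟨d.fst, (hF d).symm⟩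
    intro v w
    obtain ⟨x, hx⟩ := h3 v
    obtain ⟨y, hy⟩ := h3 w
    exact hx.trans ((hV x y).trans hy.symm)
  rcases A.eq_empty_or_nonempty with h | ⟨d, hd⟩
  · exact Or.inl h
  · right
    rw [Set.eq_univ_iff_forall]
    exact fun d' => (hall d d').1 hd

theorem dart_at (hc : G.Connected) (d0 : G.Dart) (x : V) : ∃ d : G.Dart, d.fst = x := by
  obtain ⟨p⟩ := hc.preconnected x d0.fst
  cases p with
  | nil => exact ⟨d0, rfl⟩
  | cons h p => exact ⟨⟨(_, _), h⟩, rfl⟩

theorem finite_dart [Finite V] : Finite G.Dart := by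
  refine Finite.of_injective (fun d : G.Dart => (d.fst, d.snd)) ?_
  intro d d' h
  simp only [Prod.mk.injEq] at h
  exact SimpleGraph.Dart.ext _ _ (Prod.ext h.1 h.2)

theorem finite_faces [Finite V] : Finite (Faces G σ) := by
  haveI : Finite G.Dart := finite_dart
  exact Finite.of_surjective (fc G σ) (fc_surj G σ)

theorem nonempty_dart [Finite V] (hc : G.Connected)
    (hE : Nat.card V + Nat.card (Faces G σ) = Nat.card G.edgeSet + 2) : Nonempty G.Dart := by
  by_contra hcon
  rw [not_nonempty_iff] at hcon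
  haveI : IsEmpty (Faces G σ) := ⟨fun f => by
    obtain ⟨d, _⟩ := fc_surj G σ f
    exact hcon.false d⟩
  haveI : Subsingleton V := ⟨fun x y => by
    obtain ⟨p⟩ := hc.preconnected x y
    cases p with
    | nil => rfl
    | cons h p => exact (hcon.false ⟨(_, _), h⟩).elim⟩
  have h1 : Nat.card V ≤ 1 := Finite.card_le_one_iff_subsingleton.2 inferInstance
  have h0 : Nat.card (Faces G σ) = 0 := Nat.card_of_isEmpty
  omega

theorem card_dart [Finite V] : Nat.card G.Dart = 2 * Nat.card G.edgeSet := by
  classical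
  letI : Fintype V := Fintype.ofFinite V
  have := G.dart_card_eq_twice_card_edges
  rw [Nat.card_eq_fintype_card, this, SimpleGraph.edgeFinset_card, Nat.card_eq_fintype_card]

theorem card_faces [Finite V] (hc : G.Connected) (h1 : ∀ d, (σ d).fst = d.fst)
    (h2 : ∀ d d' : G.Dart, d.fst = d'.fst → σ.SameCycle d d')
    (hE : Nat.card V + Nat.card (Faces G σ) = Nat.card G.edgeSet + 2) :
    Nat.card (Faces G σ) ≤ 2 * Nat.card V := by
  haveI : Finite G.Dart := finite_dart
  haveI : Finite (Faces G σ) := finite_faces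
  by_cases h : ∀ d : G.Dart, facePerm G σ (facePerm G σ d) ≠ d
  · -- every face has at least three darts
    choose rep hrep using fc_surj G σ
    let g : Faces G σ × Fin 3 → G.Dart := fun z => ((facePerm G σ) ^ (z.2 : ℕ)) (rep z.1)
    have hg : Function.Injective g := by
      rintro ⟨f, i⟩ ⟨f', i'⟩ hij
      have hfc : ∀ (n : ℕ) (d : G.Dart), fc G σ (((facePerm G σ) ^ n) d) = fc G σ d := by
        intro n d
        rw [fc_eq]
        exact (Equiv.Perm.sameCycle_pow_left).2 (Equiv.Perm.SameCycle.refl _ _)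
      have hff : f = f' := by
        have := congrArg (fc G σ) hij
        simp only [g] at this
        rw [hfc, hfc, hrep, hrep] at this
        exact this
      subst hff
      have hne1 : ∀ d : G.Dart, facePerm G σ d ≠ d := facePerm_ne h1
      set d := rep f with hd
      have h01 := hne1 d
      have h02 := h d
      have h12 := hne1 (facePerm G σ d)
      have hp : ∀ k : ℕ, ((facePerm G σ) ^ (k + 1)) d = facePerm G σ (((facePerm G σ) ^ k) d) :=
        fun k => by rw [pow_succ', Equiv.Perm.mul_apply]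
      have q0 : ((facePerm G σ) ^ 0) d = d := by rw [pow_zero, Equiv.Perm.one_apply]
      have q1 : ((facePerm G σ) ^ 1) d = facePerm G σ d := by rw [pow_one]
      have q2 : ((facePerm G σ) ^ 2) d = facePerm G σ (facePerm G σ d) := by rw [hp 1, q1]
      have hij' : ((facePerm G σ) ^ (i : ℕ)) d = ((facePerm G σ) ^ (i' : ℕ)) d := hij
      have hi : i = i' := by
        rcases i with ⟨i, hi⟩
        rcases i' with ⟨i', hi'⟩
        simp only at hij'
        clear hij
        interval_cases i <;> interval_cases i' <;> simp only [q0, q1, q2] at hij' ⊢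
        · exact absurd hij'.symm h01
        · exact absurd hij'.symm h02
        · exact absurd hij' h01
        · exact absurd hij'.symm h12
        · exact absurd hij' h02
        · exact absurd hij' h12
      rw [hi]
    have hcard := Nat.card_le_card_of_injective g hg
    rw [Nat.card_prod, Nat.card_eq_fintype_card (α := Fin 3), Fintype.card_fin, card_dart] at hcard
    omega
  · push Not at h
    obtain ⟨d, hd⟩ := h
    have e1 : (facePerm G σ d).fst = d.snd := facePerm_fst h1 d
    have e2 : (facePerm G σ d).snd = d.fst := by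
      have := facePerm_fst h1 (facePerm G σ d)
      rw [hd] at this
      exact this.symm
    have e3 : facePerm G σ d = d.symm := SimpleGraph.Dart.ext _ _ (Prod.ext e1 e2)
    have e4 : σ d.symm = d.symm := e3
    have e5 : σ d = d := by
      rw [e3, facePerm_apply, SimpleGraph.Dart.symm_symm] at hd
      exact hd
    have f1 : ∀ e : G.Dart, e.fst = d.fst → e = d := by
      intro e he
      have hs := h2 d e he.symm
      obtain ⟨i, hi⟩ := hs
      rw [Equiv.Perm.zpow_apply_eq_self_of_apply_eq_self e5] at hi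
      exact hi.symm
    have f2 : ∀ e : G.Dart, e.fst = d.snd → e = d.symm := by
      intro e he
      have hs := h2 d.symm e he.symm
      obtain ⟨i, hi⟩ := hs
      rw [Equiv.Perm.zpow_apply_eq_self_of_apply_eq_self e4] at hi
      exact hi.symm
    have hV : ∀ (x y : V), G.Walk x y → (x = d.fst ∨ x = d.snd) → (y = d.fst ∨ y = d.snd) := by
      intro x y p
      induction p with
      | nil => exact id
      | @cons u v w hadj p ih =>
        intro hu
        apply ih
        rcases hu with rfl | rfl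
        · have := f1 ⟨(d.fst, v), hadj⟩ rfl
          right
          rw [← this]
        · have := f2 ⟨(d.snd, v), hadj⟩ rfl
          left
          have h3 : v = (d.symm).snd := by rw [← this]
          exact h3
    have hall : ∀ e : G.Dart, e = d ∨ e = d.symm := by
      intro e
      obtain ⟨p⟩ := hc.preconnected d.fst e.fst
      rcases hV _ _ p (Or.inl rfl) with h | h
      · exact Or.inl (f1 e h)
      · exact Or.inr (f2 e h)
    have hcard : Nat.card G.Dart ≤ 2 := by
      have hsurj : Function.Surjective (fun b : Bool => if b then d else d.symm) := by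
        intro e
        rcases hall e with h | h
        · exact ⟨true, by simp [h]⟩
        · exact ⟨false, by simp [h]⟩
      have := Nat.card_le_card_of_surjective _ hsurj
      simpa using this
    have hF : Nat.card (Faces G σ) ≤ Nat.card G.Dart :=
      Nat.card_le_card_of_surjective _ (fc_surj G σ)
    haveI : Nonempty V := ⟨d.fst⟩
    have : 0 < Nat.card V := Nat.card_pos
    omega

/-- MODULE K2. -/
theorem stell (hH : HomStatement) : StellStatement := by
  intro V _ G hc hpl
  obtain ⟨σ, h1, h2, hE⟩ := hpl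
  haveI : Finite G.Dart := finite_dart
  haveI : Finite (Faces G σ) := finite_faces
  haveI : Finite G.edgeSet := inferInstance
  obtain ⟨d0⟩ := nonempty_dart hc hE
  have hDE := card_dart (G := G)
  let S : TriSphere :=
    { V := V ⊕ Faces G σ
      E := G.edgeSet ⊕ G.Dart
      T := G.Dart
      fV := inferInstance
      fE := inferInstance
      fT := inferInstance
      a := aE G σ
      b := bE G σ
      ab := hab
      l := lE G
      r := rE G σ
      lr := hlr h1
      c := cT G σ
      c_inj := hc_inj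
      s := sT G σ
      s_ends := hs_ends h1
      s_lr := hs_lr
      l_s := hl_s
      r_s := hr_s
      link := hlink h1 h2
      conn := hconn hc h1 h2
      hom := hH _ _ _ (aE G σ) (bE G σ) (lE G) (rE G σ) hab (hlr h1)
        (even_corner _ _ _ _ (cT G σ) (sT G σ) hc_inj (hs_ends h1) hs_lr hl_s hr_s)
        (hconnV hc) (hconn hc h1 h2) ⟨Sum.inl d0.fst⟩ ⟨d0⟩ (by
          rw [Nat.card_sum, Nat.card_sum]
          omega)
      vt := by
        rintro (x | f)
        · obtain ⟨d, rfl⟩ := dart_at hc d0 x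
          exact ⟨d, 0, rfl⟩
        · obtain ⟨d, rfl⟩ := fc_surj G σ f
          exact ⟨d, 2, rfl⟩
      ne := ⟨d0⟩ }
  refine ⟨S, Set.range Sum.inr, Sum.inl, Sum.inl_injective, ?_, ?_, ?_, ?_⟩
  · rintro (x | f)
    · constructor
      · rintro ⟨f, hf⟩
        exact absurd hf Sum.inr_ne_inl
      · intro h
        exact absurd ⟨x, rfl⟩ h
    · constructor
      · rintro - ⟨x, hx⟩
        exact absurd hx Sum.inl_ne_inr
      · intro _
        exact ⟨f, rfl⟩
  · intro x y
    constructor
    · intro hxy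
      refine ⟨Sum.inl (eg G ⟨(x, y), hxy⟩), trivial, ?_⟩
      rcases dt_eg G ⟨(x, y), hxy⟩ with h | h
      · left
        constructor
        · show Sum.inl (dt G (eg G ⟨(x, y), hxy⟩)).fst = Sum.inl x
          rw [h]
        · show Sum.inl (dt G (eg G ⟨(x, y), hxy⟩)).snd = Sum.inl y
          rw [h]
      · right
        constructor
        · show Sum.inl (dt G (eg G ⟨(x, y), hxy⟩)).fst = Sum.inl y
          rw [h]
          rfl
        · show Sum.inl (dt G (eg G ⟨(x, y), hxy⟩)).snd = Sum.inl x
          rw [h]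
          rfl
    · rintro ⟨e, -, he⟩
      rcases e with e | d
      · have hadj := (dt G e).adj
        rcases he with ⟨ha, hb⟩ | ⟨ha, hb⟩
        · rw [← Sum.inl.inj ha, ← Sum.inl.inj hb]
          exact hadj
        · rw [← Sum.inl.inj ha, ← Sum.inl.inj hb]
          exact hadj.symm
      · rcases he with ⟨ha, hb⟩ | ⟨ha, hb⟩
        · exact absurd hb Sum.inr_ne_inl
        · exact absurd hb Sum.inr_ne_inl
  · have hedge : ∀ (f : Faces G σ) (v : S.V), (S.grE Set.univ).Adj (Sum.inr f) v ↔
        ∃ d : G.Dart, fc G σ d = f ∧ v = Sum.inl d.fst := by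
      intro f v
      constructor
      · rintro ⟨e, -, he⟩
        rcases e with e | d
        · rcases he with ⟨ha, hb⟩ | ⟨ha, hb⟩
          · exact absurd ha Sum.inl_ne_inr
          · exact absurd hb Sum.inl_ne_inr
        · rcases he with ⟨ha, hb⟩ | ⟨ha, hb⟩
          · exact absurd ha Sum.inl_ne_inr
          · exact ⟨d, Sum.inr.inj hb, ha.symm⟩
      · rintro ⟨d, rfl, rfl⟩
        exact ⟨Sum.inr d, trivial, Or.inr ⟨rfl, rfl⟩⟩
    refine ⟨?_, ?_, ?_⟩
    · rintro x ⟨f, rfl⟩ y ⟨f', rfl⟩ hadj
      obtain ⟨d, _, hd⟩ := (hedge f _).1 hadj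
      exact Sum.inr_ne_inl hd
    · intro t
      exact ⟨2, fc G σ t, rfl⟩
    · rintro φ ⟨f, rfl⟩ x y hx hy
      obtain ⟨d, hd, rfl⟩ := (hedge f _).1 hx
      obtain ⟨d', hd', rfl⟩ := (hedge f _).1 hy
      have hs : (facePerm G σ).SameCycle d d' := (fc_eq G σ).1 (hd.trans hd'.symm)
      obtain ⟨n, -, hn⟩ := hs.exists_pow_eq'
      -- walk along the face
      have key : ∀ (n : ℕ) (d d' : G.Dart), ((facePerm G σ) ^ n) d = d' → fc G σ d = f →
          ∃ p : (S.grE Set.univ).Walk (Sum.inl d.fst) (Sum.inl d'.fst),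
            ∀ v ∈ p.support, v ∉ Set.range (Sum.inr : Faces G σ → S.V) ∧
              (S.grE Set.univ).Adj (Sum.inr f) v := by
        intro n
        induction n with
        | zero =>
          intro d d' hdd hd
          rw [pow_zero, Equiv.Perm.one_apply] at hdd
          subst hdd
          refine ⟨SimpleGraph.Walk.nil, ?_⟩
          intro v hv
          rw [SimpleGraph.Walk.support_nil, List.mem_singleton] at hv
          subst hv
          refine ⟨?_, (hedge f _).2 ⟨d, hd, rfl⟩⟩
          rintro ⟨f', hf'⟩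
          exact Sum.inr_ne_inl hf'
        | succ n ih =>
          intro d d' hdd hd
          rw [pow_succ, Equiv.Perm.mul_apply] at hdd
          obtain ⟨p, hp⟩ := ih (facePerm G σ d) d' hdd ((fc_facePerm G σ d).trans hd)
          have hadj : (S.grE Set.univ).Adj (Sum.inl d.fst) (Sum.inl (facePerm G σ d).fst) := by
            rw [facePerm_fst h1]
            refine ⟨Sum.inl (eg G d), trivial, ?_⟩
            rcases dt_eg G d with h | h
            · left
              constructor
              · show Sum.inl (dt G (eg G d)).fst = Sum.inl d.fst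
                rw [h]
              · show Sum.inl (dt G (eg G d)).snd = Sum.inl d.snd
                rw [h]
            · right
              constructor
              · show Sum.inl (dt G (eg G d)).fst = Sum.inl d.snd
                rw [h]
                rfl
              · show Sum.inl (dt G (eg G d)).snd = Sum.inl d.fst
                rw [h]
                rfl
          refine ⟨SimpleGraph.Walk.cons hadj p, ?_⟩
          intro v hv
          rw [SimpleGraph.Walk.support_cons, List.mem_cons] at hv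
          rcases hv with rfl | hv
          · refine ⟨?_, (hedge f _).2 ⟨d, hd, rfl⟩⟩
            rintro ⟨f', hf'⟩
            exact Sum.inr_ne_inl hf'
          · exact hp v hv
      exact key n d d' hn hd
  · have := card_faces hc h1 h2 hE
    show Nat.card (V ⊕ Faces G σ) ≤ 3 * Nat.card V
    rw [Nat.card_sum]
    omega

end

end Helper14_PP
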